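import Pool.Agent.H998.HK.Spec3

/-!
Task FIN: final assembly of the Hohenberg-Kohn theorem.
-/

set_option autoImplicit false

noncomputable section

namespace Pool.Agent.H762.HK

open MeasureTheory Filter Topology Set
open scoped ENNReal NNReal
open Pool.Agent.H998.HK

/-- a measurable representative of a potential -/
theorem exists_meas (v : E3 → ℝ) (hv : XStar v) :
    ∃ v' : E3 → ℝ, Measurable v' ∧ XStar v' ∧ v =ᵐ[volume] v' := by
  obtain ⟨a, b, ha, hb, hab⟩ := hv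
  have hvm : AEStronglyMeasurable v volume := by
    have : v = a + b := funext hab
    rw [this]
    exact ha.1.add hb.1
  have h1 : v =ᵐ[volume] hvm.mk v := hvm.ae_eq_mk
  refine ⟨hvm.mk v, hvm.stronglyMeasurable_mk.measurable, ?_, h1⟩
  refine ⟨a, fun x => hvm.mk v x - a x, ha, ?_, fun x => by ring⟩
  refine MemLp.ae_eq ?_ hb
  filter_upwards [h1] with x hx
  rw [← hx, hab x]; ring

/-- almost everywhere equal potentials give almost everywhere equal potentials on the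
configuration space -/
theorem pot_congr (n : ℕ) (v v' : E3 → ℝ) (h : v =ᵐ[volume] v') :
    ∀ᵐ z : Xn n, pot n v z = pot n v' z := by
  have h1 : ∀ᵐ z : Xn n, v z.1 = v' z.1 :=
    (Measure.quasiMeasurePreserving_fst (μ := (volume : Measure E3))
      (ν := (volume : Measure (Yn n)))).ae h
  have h2 : ∀ᵐ z : Xn n, ∀ j, v (z.2 j) = v' (z.2 j) := by
    rw [ae_all_iff]
    intro j
    have h3 : ∀ᵐ y : Yn n, v (y j) = v' (y j) :=
      (Measure.quasiMeasurePreserving_eval (fun _ : Fin n => (volume : Measure E3)) j).ae h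
    exact (Measure.quasiMeasurePreserving_snd (μ := (volume : Measure E3))
      (ν := (volume : Measure (Yn n)))).ae h3
  filter_upwards [h1, h2] with z hz1 hz2
  simp only [pot, hz1, hz2]

theorem weakSol_congr (n : ℕ) (v v' : E3 → ℝ) (h : v =ᵐ[volume] v') (E : ℝ) (f : Xn n → ℂ)
    (Dx : Fin 3 → Xn n → ℂ) (Dy : Fin n → Fin 3 → Xn n → ℂ) (hw : WeakSol n v E f Dx Dy) :
    WeakSol n v' E f Dx Dy := by
  intro g Gx Gy hg
  rw [← hw g Gx Gy hg]
  apply integral_congr_ae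
  filter_upwards [pot_congr n v v' h] with z hz
  simp only [formInt, hz]

/-- a function all of whose values lie on one side of every level is constant -/
theorem ae_const {X : Type} [MeasurableSpace X] (μ : Measure X) [NeZero μ] (w : X → ℝ)
    (h : ∀ t : ℝ, (∀ᵐ x ∂μ, t ≤ w x) ∨ (∀ᵐ x ∂μ, w x < t)) : ∃ c : ℝ, ∀ᵐ x ∂μ, w x = c := by
  set S : Set ℝ := {t : ℝ | ∀ᵐ x ∂μ, t ≤ w x} with hS
  have hne : S.Nonempty := by
    by_contra hcon
    have h1 : ∀ m : ℕ, ∀ᵐ x ∂μ, w x < -(m : ℝ) := by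
      intro m
      rcases h (-(m : ℝ)) with h2 | h2
      · exact absurd ⟨_, h2⟩ hcon
      · exact h2
    rw [← ae_all_iff] at h1
    obtain ⟨x, hx⟩ := h1.exists
    obtain ⟨m, hm⟩ := exists_nat_gt (-(w x))
    have := hx m
    linarith
  have hbd : BddAbove S := by
    by_contra hcon
    have h1 : ∀ m : ℕ, ∀ᵐ x ∂μ, (m : ℝ) ≤ w x := by
      intro m
      rw [not_bddAbove_iff] at hcon
      obtain ⟨t, ht, htm⟩ := hcon (m : ℝ)
      filter_upwards [ht] with x hx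
      linarith
    rw [← ae_all_iff] at h1
    obtain ⟨x, hx⟩ := h1.exists
    obtain ⟨m, hm⟩ := exists_nat_gt (w x)
    have := hx m
    linarith
  refine ⟨sSup S, ?_⟩
  have h1 : ∀ m : ℕ, ∀ᵐ x ∂μ, sSup S - 1 / ((m : ℝ) + 1) ≤ w x := by
    intro m
    have hpos : (0 : ℝ) < 1 / ((m : ℝ) + 1) := by positivity
    obtain ⟨t, ht, htm⟩ := exists_lt_of_lt_csSup hne (sub_lt_self (sSup S) hpos)
    filter_upwards [ht] with x hx
    linarith
  have h2 : ∀ m : ℕ, ∀ᵐ x ∂μ, w x < sSup S + 1 / ((m : ℝ) + 1) := by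
    intro m
    have hpos : (0 : ℝ) < 1 / ((m : ℝ) + 1) := by positivity
    rcases h (sSup S + 1 / ((m : ℝ) + 1)) with h3 | h3
    · have := le_csSup hbd h3
      linarith
    · exact h3
  rw [← ae_all_iff] at h1 h2
  filter_upwards [h1, h2] with x hx1 hx2
  apply le_antisymm
  · apply le_of_forall_pos_le_add
    intro ε hε
    obtain ⟨m, hm⟩ := exists_nat_one_div_lt hε
    have := hx2 m
    linarith
  · apply le_of_forall_pos_le_add
    intro ε hε
    obtain ⟨m, hm⟩ := exists_nat_one_div_lt hε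
    have := hx1 m
    linarith

/-- if a component of a wave function is zero in the coordinates `ℝ³ × (ℝ³)ⁿ` it is zero -/
theorem ae_zero_of_cmp (n : ℕ) (F : (Fin (n + 1) → E3) → ℂ)
    (h : ∀ᵐ z : Xn n, cmp F z = 0) : ∀ᵐ x : Fin (n + 1) → E3, F x = 0 := by
  have he := volume_preserving_piFinSuccAbove (fun _ : Fin (n + 1) => E3) 0
  have h1 := he.quasiMeasurePreserving.ae h
  filter_upwards [h1] with x hx
  have h2 : cmp F (MeasurableEquiv.piFinSuccAbove (fun _ : Fin (n + 1) => E3) 0 x) = F x := by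
    unfold Pool.Agent.H998.HK.cmp
    congr 1
    funext j
    refine Fin.cases ?_ (fun j => ?_) j
    · rfl
    · rfl
  rw [← h2]; exact hx

theorem t_FIN : S_FIN := by
  intro hSPLIT hUCP hVAR hEL hTWO _ n v₁ v₂ hv₁ hv₂ ρ h₁ h₂
  obtain ⟨Ψ, G, hW, hN, hE₁, hE₂⟩ := hVAR n v₁ v₂ hv₁ hv₂ ρ h₁ h₂
  obtain ⟨u₁, hm₁, hx₁, hae₁⟩ := exists_meas v₁ hv₁
  obtain ⟨u₂, hm₂, hx₂, hae₂⟩ := exists_meas v₂ hv₂
  have hs : ∃ s, ¬ ∀ᵐ x : Fin (n + 1) → E3, Ψ s x = 0 := by
    by_contra hcon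
    push Not at hcon
    have h0 : normSq (n + 1) Ψ = 0 := by
      unfold normSq
      apply Finset.sum_eq_zero
      intro s _
      have : ∫ x : Fin (n + 1) → E3, ‖Ψ s x‖ ^ 2 = ∫ _ : Fin (n + 1) → E3, (0 : ℝ) := by
        apply integral_congr_ae
        filter_upwards [hcon s] with x hx
        rw [hx]; simp
      rw [this]; simp
    rw [h0] at hN
    exact zero_ne_one hN
  obtain ⟨s, hs⟩ := hs
  have hf0 : ¬ ∀ᵐ z : Xn n, cmp (Ψ s) z = 0 := fun h => hs (ae_zero_of_cmp n (Ψ s) h)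
  obtain ⟨hH, hw₁⟩ := hEL n v₁ hv₁ Ψ G hW hN hE₁ s
  obtain ⟨-, hw₂⟩ := hEL n v₂ hv₂ Ψ G hW hN hE₂ s
  have hw₁' := weakSol_congr n v₁ u₁ hae₁ _ _ _ _ hw₁
  have hw₂' := weakSol_congr n v₂ u₂ hae₂ _ _ _ _ hw₂
  have htwo := hTWO n u₁ u₂ (E0 n v₁) (E0 n v₂) (cmp (Ψ s)) _ _ hx₁ hx₂ hm₁ hm₂ hH hw₁' hw₂'
  have hwm : Measurable fun x => u₁ x - u₂ x := hm₁.sub hm₂
  have hdich : ∀ t : ℝ, (∀ᵐ x : E3, t ≤ u₁ x - u₂ x) ∨ (∀ᵐ x : E3, u₁ x - u₂ x < t) := by
    intro t
    by_contra hcon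
    push Not at hcon
    obtain ⟨hc1, hc2⟩ := hcon
    have hB1 : volume {x : E3 | u₁ x - u₂ x < t} ≠ 0 := by
      intro h0
      apply hc1
      rw [ae_iff]
      convert h0 using 2
      ext x; simp
    have hB2 : volume {x : E3 | t ≤ u₁ x - u₂ x} ≠ 0 := by
      intro h0
      apply hc2
      rw [ae_iff]
      convert h0 using 2
      ext x; simp
    obtain ⟨Dx', Dy', hH', hw'⟩ := hSPLIT n u₁ (E0 n v₁) (cmp (Ψ s)) _ _ hx₁ hm₁ hH hw₁'
      (fun x => u₁ x - u₂ x) (E0 n v₁ - E0 n v₂) hwm htwo t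
    have h3 := hUCP n u₁ (E0 n v₁) _ Dx' Dy' hx₁ hm₁ hH' hw' {x : E3 | t ≤ u₁ x - u₂ x}
      (measurableSet_le measurable_const hwm) hB2 (Eventually.of_forall (by
        intro z hz
        apply indicator_of_notMem
        simp only [Set.mem_ofPred_eq, not_lt]
        exact hz))
    have h4 := hUCP n u₁ (E0 n v₁) _ _ _ hx₁ hm₁ hH hw₁' {x : E3 | u₁ x - u₂ x < t}
      (measurableSet_lt hwm measurable_const) hB1 (by
        filter_upwards [h3] with z hz hz1
        rwa [indicator_of_mem (by exact hz1)] at hz)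
    exact hf0 h4
  obtain ⟨c, hc⟩ := ae_const (volume : Measure E3) _ hdich
  refine ⟨c, ?_⟩
  filter_upwards [hc, hae₁, hae₂] with x hx h1 h2
  rw [h1, h2, hx]

end Pool.Agent.H762.HK
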